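import Mathlib

/-! Abstract part: a free action of a free group and three good letters at each point give a paradox. -/

set_option autoImplicit false

namespace Pool.Agent.N799.SQ

/-- an equivariant map to the group for an action which is free on an invariant set -/
lemma exists_equivariant {G X : Type} [Group G] (act : G → X → X) (h1 : ∀ x, act 1 x = x)
    (hm : ∀ g h x, act (g * h) x = act g (act h x)) (S : Set X) (hS : ∀ g, ∀ x ∈ S, act g x ∈ S)
    (hfree : ∀ g, ∀ x ∈ S, act g x = x → g = 1) :
    ∃ f : X → G, ∀ g, ∀ x ∈ S, f (act g x) = g * f x := by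
  classical
  let r : Setoid X :=
    { r := fun x y => ∃ g, act g x = y
      iseqv :=
        { refl := fun x => ⟨1, h1 x⟩
          symm := by
            rintro x y ⟨g, rfl⟩
            exact ⟨g⁻¹, by rw [← hm, inv_mul_cancel, h1]⟩
          trans := by
            rintro x y z ⟨g, rfl⟩ ⟨h, rfl⟩
            exact ⟨h * g, hm _ _ _⟩ } }
  have hrep : ∀ x : X, ∃ g, act g (Quotient.mk r x).out = x := by
    intro x
    exact Quotient.mk_out (s := r) x
  choose f hf using hrep
  refine ⟨f, fun g x hx => ?_⟩
  have e1 : (Quotient.mk r (act g x)) = Quotient.mk r x := by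
    apply Quotient.sound
    exact ⟨g⁻¹, by rw [← hm, inv_mul_cancel, h1]⟩
  have e2 := hf (act g x)
  rw [e1] at e2
  have e3 := hf x
  set y := (Quotient.mk r x).out with hy
  have hyS : y ∈ S := by
    have : y = act (f x)⁻¹ x := by
      calc y = act ((f x)⁻¹ * f x) y := by rw [inv_mul_cancel, h1]
        _ = act (f x)⁻¹ (act (f x) y) := hm _ _ _
        _ = act (f x)⁻¹ x := by rw [e3]
    rw [this]
    exact hS _ _ hx
  have e4 : act ((g * f x)⁻¹ * f (act g x)) y = y := by
    calc act ((g * f x)⁻¹ * f (act g x)) y = act (g * f x)⁻¹ (act g x) := by rw [hm, e2]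
      _ = act (g * f x)⁻¹ (act g (act (f x) y)) := by rw [e3]
      _ = act ((g * f x)⁻¹ * (g * f x)) y := by rw [hm, hm]
      _ = y := by rw [inv_mul_cancel, h1]
  have e5 := hfree _ _ hyS e4
  exact (inv_mul_eq_one.1 e5).symm

/-- the first letter of `of i * w` -/
lemma head_of_mul {N : ℕ} (i : Fin N) (w : FreeGroup (Fin N)) (h : ∀ l, w.toWord ≠ (i, false) :: l) :
    (FreeGroup.of i * w).toWord = (i, true) :: w.toWord := by
  rw [FreeGroup.toWord_mul, FreeGroup.toWord_of, List.singleton_append]
  rw [FreeGroup.reduce.cons, FreeGroup.reduce_toWord]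
  rcases hw : w.toWord with _ | ⟨a, l⟩
  · rfl
  · simp only
    rw [if_neg]
    rintro ⟨h1, h2⟩
    apply h l
    rw [hw]
    congr 1
    ext
    · simp [← h1]
    · simpa using h2.symm

/-- **Paradox from three good letters.** -/
lemma paradox {X : Type} (N : ℕ) [NeZero N] (act : FreeGroup (Fin N) → X → X) (h1 : ∀ x, act 1 x = x)
    (hm : ∀ g h x, act (g * h) x = act g (act h x)) (S : Set X) (hS : ∀ g, ∀ x ∈ S, act g x ∈ S)
    (hfree : ∀ g, ∀ x ∈ S, act g x = x → g = 1) (E : Set X) (hE : E ⊆ S)
    (h3 : ∀ x ∈ E, ∃ i : Fin 3 → Fin N, Function.Injective i ∧ ∀ k, act (FreeGroup.of (i k)) x ∈ E) :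
    ∃ s : X → Bool → Fin N, (∀ x ∈ E, ∀ j, act (FreeGroup.of (s x j)) x ∈ E) ∧
      (∀ x ∈ E, ∀ y ∈ E, ∀ j k, act (FreeGroup.of (s x j)) x = act (FreeGroup.of (s y k)) y →
        x = y ∧ j = k) := by
  classical
  obtain ⟨f, hf⟩ := exists_equivariant act h1 hm S hS hfree
  -- two letters which do not cancel
  have h2 : ∀ x ∈ E, ∃ t : Bool → Fin N, t false ≠ t true ∧
      (∀ j, act (FreeGroup.of (t j)) x ∈ E) ∧
      (∀ j, ∀ l, (f x).toWord ≠ (t j, false) :: l) := by
    intro x hx
    obtain ⟨i, hi, hg⟩ := h3 x hx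
    by_cases hbad : ∃ k, ∃ l, (f x).toWord = (i k, false) :: l
    · obtain ⟨k, l, hk⟩ := hbad
      have hgood : ∀ m, m ≠ k → ∀ l', (f x).toWord ≠ (i m, false) :: l' := by
        intro m hmk l' hl'
        rw [hk] at hl'
        simp only [List.cons.injEq, Prod.mk.injEq, and_true] at hl'
        exact hmk (hi hl'.1).symm
      have key : ∀ a b : Fin 3, a ≠ k → b ≠ k → a ≠ b → ∃ t : Bool → Fin N, t false ≠ t true ∧
          (∀ j, act (FreeGroup.of (t j)) x ∈ E) ∧
          (∀ j, ∀ l, (f x).toWord ≠ (t j, false) :: l) := by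
        intro a b ha hb hab
        refine ⟨fun j => if j then i b else i a, ?_, ?_, ?_⟩
        · simpa using fun h => hab (hi h)
        · intro j; cases j <;> simp [hg]
        · intro j; cases j
          · simpa using hgood a ha
          · simpa using hgood b hb
      fin_cases k
      · exact key 1 2 (by decide) (by decide) (by decide)
      · exact key 0 2 (by decide) (by decide) (by decide)
      · exact key 0 1 (by decide) (by decide) (by decide)
    · push Not at hbad
      refine ⟨fun j => if j then i 1 else i 0, ?_, ?_, ?_⟩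
      · simpa using fun h => absurd (hi h) (by decide)
      · intro j; cases j <;> simp [hg]
      · intro j; cases j
        · simpa using hbad 0
        · simpa using hbad 1
  have : Nonempty (Fin N) := ⟨0⟩
  choose! s hs using h2
  refine ⟨s, fun x hx j => (hs x hx).2.1 j, ?_⟩
  intro x hx y hy j k hxy
  have e1 := hf (FreeGroup.of (s x j)) x (hE hx)
  have e2 := hf (FreeGroup.of (s y k)) y (hE hy)
  rw [hxy] at e1
  have e3 : (FreeGroup.of (s x j) * f x).toWord = (FreeGroup.of (s y k) * f y).toWord := by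
    rw [← e1, ← e2]
  rw [head_of_mul _ _ ((hs x hx).2.2 j), head_of_mul _ _ ((hs y hy).2.2 k)] at e3
  simp only [List.cons.injEq, Prod.mk.injEq, and_true] at e3
  have e4 : x = y := by
    have := congrArg (act (FreeGroup.of (s x j))⁻¹) hxy
    rw [← e3.1, ← hm, ← hm, inv_mul_cancel, h1, h1] at this
    exact this
  refine ⟨e4, ?_⟩
  subst e4
  have hne := (hs x hx).1
  by_contra hjk
  have e5 := e3.1
  cases j <;> cases k
  · exact hjk rfl
  · exact hne e5
  · exact hne e5.symm
  · exact hjk rfl

end Pool.Agent.N799.SQ
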