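import Pool.Agent.N799.SQ.Tr
import Pool.Agent.N799.SQ.Abs

/-! The nine matrices. -/

set_option autoImplicit false

namespace Pool.Agent.N799.SQ

open Polynomial Matrix

def pp : Fin 9 → Fin 2 → ℚ :=
  ![![0, -1], ![1, 0], ![1, -2], ![1, -1], ![1, 1], ![1, 2], ![2, -1], ![1, -3], ![1, 3]]

def qq : Fin 9 → Fin 2 → ℚ :=
  ![![1, 0], ![0, 1], ![1, -1], ![0, 1], ![-1, 0], ![-1, -1], ![1, 0], ![0, 1], ![-1, -2]]

/-- the matrices `[[a, b], [b, d]]` as triples `a, b, d` -/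
def sa : Fin 9 → ℚ := ![2/3, 2/3, 2/3, 303/200, 303/200, 303/200, 17/15, 17/15, 17/15]
def sb : Fin 9 → ℚ := ![1/10, 1/10, 1/10, 1/10, 1/10, 1/10, -8/15, -8/15, -8/15]
def sd : Fin 9 → ℚ := ![303/200, 303/200, 303/200, 2/3, 2/3, 2/3, 17/15, 17/15, 17/15]

/-- `c`: the columns -/
def cc : Fin 9 × Bool → Fin 2 → ℚ := fun x =>
  if x.2 then pp x.1 else
    ![sd x.1 * qq x.1 0 - sb x.1 * qq x.1 1, - sb x.1 * qq x.1 0 + sa x.1 * qq x.1 1]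

/-- `r`: the rows -/
def rr : Fin 9 × Bool → Fin 2 → ℚ := fun x =>
  if x.2 then
    ![qq x.1 1 * sa x.1 - qq x.1 0 * sb x.1, qq x.1 1 * sb x.1 - qq x.1 0 * sd x.1] else
    ![- pp x.1 1, pp x.1 0]

/-- `V` -/
def vv : Fin 9 × Bool → Matrix (Fin 2) (Fin 2) ℚ := fun x =>
  if x.2 then
    vecMulVec (qq x.1) ![- pp x.1 1 * sa x.1 + pp x.1 0 * sb x.1, - pp x.1 1 * sb x.1 + pp x.1 0 * sd x.1] else
    vecMulVec ![sd x.1 * pp x.1 0 - sb x.1 * pp x.1 1, - sb x.1 * pp x.1 0 + sa x.1 * pp x.1 1]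
      ![qq x.1 1, - qq x.1 0]

lemma hR : ∀ x y : Fin 9 × Bool, (x.1 = y.1 → x.2 = y.2) → rr x ⬝ᵥ cc y ≠ 0 := by
  decide +kernel

end Pool.Agent.N799.SQ
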