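import Pool.Agent.N799.SQ.Data

/-! The group generated by the nine matrices acts freely on the nonzero vectors. -/

set_option autoImplicit false

namespace Pool.Agent.N799.SQ

open Polynomial Matrix

/-- the real matrices -/
noncomputable def MM (T : ℝ) (x : Fin 9 × Bool) : Matrix (Fin 2) (Fin 2) ℝ := RM cc rr vv T x

lemma MM_det (T : ℝ) (hT : T ≠ 0) (i : Fin 9) : (MM T (i, true)).det = 1 := by
  rw [Matrix.det_fin_two]
  simp only [MM, RM, UU, vv, cc, rr, Matrix.add_apply, Matrix.smul_apply, Matrix.map_apply,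
    vecMulVec_apply, if_true, smul_eq_mul]
  fin_cases i <;>
  · simp [pp, qq, sa, sb, sd]
    field_simp
    ring

/-- the group elements -/
noncomputable def bb (T : ℝ) (hT : T ≠ 0) (i : Fin 9) : Matrix.SpecialLinearGroup (Fin 2) ℝ :=
  ⟨MM T (i, true), MM_det T hT i⟩

lemma bb_inv (T : ℝ) (hT : T ≠ 0) (i : Fin 9) :
    (((bb T hT i)⁻¹ : Matrix.SpecialLinearGroup (Fin 2) ℝ) : Matrix (Fin 2) (Fin 2) ℝ) =
      MM T (i, false) := by
  rw [Matrix.SpecialLinearGroup.coe_inv, bb, Matrix.adjugate_fin_two]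
  ext k l
  simp only [MM, RM, UU, vv, cc, rr, Matrix.add_apply, Matrix.smul_apply, Matrix.map_apply,
    vecMulVec_apply, if_true, smul_eq_mul, Bool.false_eq_true, if_false]
  fin_cases i <;> fin_cases k <;> fin_cases l <;>
  · simp [pp, qq, sa, sb, sd]
    try field_simp
    try ring_nf
    try simp

/-- the homomorphism -/
noncomputable def rho (T : ℝ) (hT : T ≠ 0) : FreeGroup (Fin 9) →* Matrix.SpecialLinearGroup (Fin 2) ℝ :=
  FreeGroup.lift (bb T hT)

lemma rho_mk (T : ℝ) (hT : T ≠ 0) (L : List (Fin 9 × Bool)) :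
    ((rho T hT (FreeGroup.mk L) : Matrix.SpecialLinearGroup (Fin 2) ℝ) : Matrix (Fin 2) (Fin 2) ℝ) =
      (L.map (MM T)).prod := by
  rw [rho, FreeGroup.lift_mk]
  induction L with
  | nil => simp
  | cons a L ih =>
    rw [List.map_cons, List.prod_cons, List.map_cons, List.prod_cons,
      Matrix.SpecialLinearGroup.coe_mul, ih]
    congr 1
    obtain ⟨i, ε⟩ := a
    cases ε
    · simp only [cond_false]
      exact bb_inv T hT i
    · rfl

lemma trace_rho (T : ℝ) (hT : Transcendental ℚ T) (hT0 : T ≠ 0) (g : FreeGroup (Fin 9)) (hg : g ≠ 1) :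
    ((rho T hT0 g : Matrix.SpecialLinearGroup (Fin 2) ℝ) : Matrix (Fin 2) (Fin 2) ℝ).trace ≠ 2 := by
  classical
  set L := g.toWord with hL
  have hred : FreeGroup.IsReduced L := FreeGroup.isReduced_toWord
  have hcyc := FreeGroup.reduceCyclically.isCyclicallyReduced hred
  have hconj := FreeGroup.reduceCyclically.conj_conjugator_reduceCyclically L
  set K := FreeGroup.reduceCyclically L with hK
  set J := FreeGroup.reduceCyclically.conjugator L with hJ
  have hgK : g = FreeGroup.mk J * FreeGroup.mk K * (FreeGroup.mk J)⁻¹ := by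
    rw [FreeGroup.inv_mk, FreeGroup.mul_mk, FreeGroup.mul_mk, hconj, hL, FreeGroup.mk_toWord]
  have hKne : K ≠ [] := by
    intro h
    apply hg
    rw [hgK, h, ← FreeGroup.one_eq_mk, mul_one, mul_inv_cancel]
  have htr : ((rho T hT0 g : Matrix.SpecialLinearGroup (Fin 2) ℝ) : Matrix (Fin 2) (Fin 2) ℝ).trace =
      (K.map (MM T)).prod.trace := by
    rw [hgK, map_mul, map_mul, map_inv, Matrix.SpecialLinearGroup.coe_mul, Matrix.trace_mul_comm,
      ← Matrix.SpecialLinearGroup.coe_mul, ← mul_assoc, inv_mul_cancel, one_mul, rho_mk]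
  rw [htr]
  refine trace_ne_two cc rr vv T hT K hKne ?_ ?_
  · exact List.IsChain.imp (fun a b h => hR a b h) hcyc.1
  · apply hR
    apply hcyc.2
    · exact List.getLast_mem_getLast? hKne
    · exact List.head_mem_head? hKne

/-- the group acts freely on the nonzero vectors -/
lemma free (T : ℝ) (hT : Transcendental ℚ T) (hT0 : T ≠ 0) (g : FreeGroup (Fin 9)) (v : Fin 2 → ℝ)
    (hv : v ≠ 0)
    (h : ((rho T hT0 g : Matrix.SpecialLinearGroup (Fin 2) ℝ) : Matrix (Fin 2) (Fin 2) ℝ) *ᵥ v = v) :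
    g = 1 := by
  by_contra hg
  apply trace_rho T hT hT0 g hg
  set M := ((rho T hT0 g : Matrix.SpecialLinearGroup (Fin 2) ℝ) : Matrix (Fin 2) (Fin 2) ℝ) with hM
  have hdet : M.det = 1 := (rho T hT0 g).2
  have h0 : (M - 1).det = 0 := by
    apply Matrix.exists_mulVec_eq_zero_iff.1
    exact ⟨v, hv, by rw [Matrix.sub_mulVec, h, Matrix.one_mulVec, sub_self]⟩
  rw [Matrix.det_fin_two] at h0 hdet
  rw [Matrix.trace_fin_two]
  simp [Matrix.sub_apply] at h0
  linarith

end Pool.Agent.N799.SQ
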