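import Pool.Agent.N799.SQ.Grp

/-! The open square is paradoxical under linear maps of determinant one. -/

set_option autoImplicit false

namespace Pool.Agent.N799.SQ

open Matrix

/-- the open square -/
def EE : Set (Fin 2 → ℝ) := {v : Fin 2 → ℝ | ∀ k, 0 < v k ∧ v k < 1}

/-- the part of the square which the `i`-th matrix maps into the square -/
def reg (i : Fin 9) (x : Fin 2 → ℝ) : Prop :=
  (i < 3 ∧ x 1 ≤ 29 / 50) ∨ (3 ≤ i ∧ i < 6 ∧ x 0 ≤ 29 / 50) ∨ (6 ≤ i ∧ 29 / 50 ≤ x 0 ∧ 29 / 50 ≤ x 1)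

lemma good (T : ℝ) (h1 : 1 < T) (h2 : T < 1 + 1 / 100000) (x : Fin 2 → ℝ) (hx : x ∈ EE) (i : Fin 9)
    (hi : reg i x) : MM T (i, true) *ᵥ x ∈ EE := by
  have hT0 : 0 < T := by linarith
  have g1 : T⁻¹ < 1 := inv_lt_one_of_one_lt₀ h1
  have g2 : 1 - 1 / 100000 < T⁻¹ := by
    rw [lt_inv_comm₀ (by norm_num) hT0]
    refine lt_of_lt_of_le h2 ?_
    norm_num
  have hx0 := hx 0
  have hx1 := hx 1
  have a1 : x 0 < T * x 0 := by nlinarith [hx0.1]
  have a2 : T * x 0 < (1 + 1 / 100000) * x 0 := mul_lt_mul_of_pos_right h2 hx0.1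
  have b1 : x 1 < T * x 1 := by nlinarith [hx1.1]
  have b2 : T * x 1 < (1 + 1 / 100000) * x 1 := mul_lt_mul_of_pos_right h2 hx1.1
  have c1 : T⁻¹ * x 0 < x 0 := by nlinarith [hx0.1]
  have c2 : (1 - 1 / 100000) * x 0 < T⁻¹ * x 0 := mul_lt_mul_of_pos_right g2 hx0.1
  have d1 : T⁻¹ * x 1 < x 1 := by nlinarith [hx1.1]
  have d2 : (1 - 1 / 100000) * x 1 < T⁻¹ * x 1 := mul_lt_mul_of_pos_right g2 hx1.1
  obtain ⟨p0, q0⟩ := hx0
  obtain ⟨p1, q1⟩ := hx1
  intro k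
  simp only [Matrix.mulVec, dotProduct, Fin.sum_univ_two, MM, RM, UU, vv, cc, rr, Matrix.add_apply,
    Matrix.smul_apply, Matrix.map_apply, vecMulVec_apply, if_true, smul_eq_mul]
  unfold reg at hi
  fin_cases i <;> simp [pp, qq, sa, sb, sd] at hi ⊢ <;> fin_cases k <;> simp <;>
  · constructor <;> linarith

lemma exists_T : ∃ T : ℝ, 1 < T ∧ T < 1 + 1 / 100000 ∧ Transcendental ℚ T := by
  have hc : ({x : ℝ | IsAlgebraic ℚ x}).Countable := Algebraic.countable ℚ ℝ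
  have hd := hc.dense_compl ℝ
  obtain ⟨T, hT, hT'⟩ := hd.inter_open_nonempty (Set.Ioo 1 (1 + 1 / 100000)) isOpen_Ioo
    (Set.nonempty_Ioo.2 (by norm_num))
  exact ⟨T, hT.1, hT.2, hT'⟩

lemma three (x : Fin 2 → ℝ) : ∃ i : Fin 3 → Fin 9, Function.Injective i ∧ ∀ k, reg (i k) x := by
  by_cases h1 : x 1 ≤ 29 / 50
  · refine ⟨![0, 1, 2], by decide, ?_⟩
    intro k
    left
    fin_cases k <;> exact ⟨by decide, h1⟩
  · by_cases h0 : x 0 ≤ 29 / 50
    · refine ⟨![3, 4, 5], by decide, ?_⟩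
      intro k
      right; left
      fin_cases k <;> exact ⟨by decide, by decide, h0⟩
    · refine ⟨![6, 7, 8], by decide, ?_⟩
      intro k
      right; right
      push Not at h0 h1
      fin_cases k <;> exact ⟨by decide, h0.le, h1.le⟩

/-- **The open square is `SL(2,ℝ)`-paradoxical**, with nine pieces in each of the two groups. -/
theorem main : ∃ (A B : Fin 9 → Set (Fin 2 → ℝ)) (g : Fin 9 → Matrix.SpecialLinearGroup (Fin 2) ℝ),
    (∀ i, A i ⊆ EE) ∧ (∀ j, B j ⊆ EE) ∧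
    Pairwise (fun i i' => Disjoint (A i) (A i')) ∧
    Pairwise (fun j j' => Disjoint (B j) (B j')) ∧
    (∀ i j, Disjoint (A i) (B j)) ∧
    (⋃ i, (fun v => ((g i : Matrix (Fin 2) (Fin 2) ℝ)) *ᵥ v) '' A i) = EE ∧
    (⋃ j, (fun v => ((g j : Matrix (Fin 2) (Fin 2) ℝ)) *ᵥ v) '' B j) = EE := by
  obtain ⟨T, h1, h2, hT⟩ := exists_T
  have hT0 : T ≠ 0 := by
    have : 0 < T := by linarith
    exact this.ne'
  have hE0 : ∀ v ∈ EE, v ≠ 0 := by
    rintro v hv rfl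
    have := (hv 0).1
    simp at this
  have hofm : ∀ i : Fin 9, ((rho T hT0 (FreeGroup.of i) : Matrix.SpecialLinearGroup (Fin 2) ℝ) :
      Matrix (Fin 2) (Fin 2) ℝ) = MM T (i, true) := by
    intro i
    rw [rho, FreeGroup.lift_apply_of]
    rfl
  obtain ⟨s, hs, hinj⟩ := paradox 9
    (fun g v => ((rho T hT0 g : Matrix.SpecialLinearGroup (Fin 2) ℝ) : Matrix (Fin 2) (Fin 2) ℝ) *ᵥ v)
    (by intro v; simp)
    (by
      intro g h v
      simp only [map_mul, Matrix.SpecialLinearGroup.coe_mul, Matrix.mulVec_mulVec])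
    {v | v ≠ 0}
    (by
      intro g v hv h0
      apply hv
      have e : ((rho T hT0 g⁻¹ : Matrix.SpecialLinearGroup (Fin 2) ℝ) : Matrix (Fin 2) (Fin 2) ℝ) *ᵥ
          (((rho T hT0 g : Matrix.SpecialLinearGroup (Fin 2) ℝ) : Matrix (Fin 2) (Fin 2) ℝ) *ᵥ v) = 0 := by
        rw [h0, Matrix.mulVec_zero]
      rw [Matrix.mulVec_mulVec, ← Matrix.SpecialLinearGroup.coe_mul, ← map_mul, inv_mul_cancel,
        map_one, Matrix.SpecialLinearGroup.coe_one, Matrix.one_mulVec] at e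
      exact e)
    (fun g v hv h => free T hT hT0 g v hv h)
    EE (fun v hv => hE0 v hv)
    (by
      intro x hx
      obtain ⟨i, hi, hr⟩ := three x
      refine ⟨i, hi, fun k => ?_⟩
      simp only [hofm]
      exact good T h1 h2 x hx _ (hr k))
  simp only [hofm] at hs hinj
  have key : ∀ j : Bool, (⋃ i, (fun v => (((bb T hT0 i)⁻¹ : Matrix.SpecialLinearGroup (Fin 2) ℝ) :
      Matrix (Fin 2) (Fin 2) ℝ) *ᵥ v) '' {y | ∃ x ∈ EE, s x j = i ∧ MM T (i, true) *ᵥ x = y}) = EE := by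
    intro j
    have hcancel : ∀ (i : Fin 9) (x : Fin 2 → ℝ), (((bb T hT0 i)⁻¹ : Matrix.SpecialLinearGroup (Fin 2) ℝ) :
        Matrix (Fin 2) (Fin 2) ℝ) *ᵥ (MM T (i, true) *ᵥ x) = x := by
      intro i x
      have e : MM T (i, true) = ((bb T hT0 i : Matrix.SpecialLinearGroup (Fin 2) ℝ) :
        Matrix (Fin 2) (Fin 2) ℝ) := rfl
      rw [e, Matrix.mulVec_mulVec, ← Matrix.SpecialLinearGroup.coe_mul, inv_mul_cancel,
        Matrix.SpecialLinearGroup.coe_one, Matrix.one_mulVec]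
    ext z
    simp only [Set.mem_iUnion, Set.mem_image, Set.mem_ofPred_eq]
    constructor
    · rintro ⟨i, y, ⟨x, hx, _, rfl⟩, rfl⟩
      rw [hcancel]
      exact hx
    · intro hz
      exact ⟨s z j, MM T (s z j, true) *ᵥ z, ⟨z, hz, rfl, rfl⟩, hcancel _ _⟩
  refine ⟨fun i => {y | ∃ x ∈ EE, s x false = i ∧ MM T (i, true) *ᵥ x = y},
    fun i => {y | ∃ x ∈ EE, s x true = i ∧ MM T (i, true) *ᵥ x = y},
    fun i => (bb T hT0 i)⁻¹, ?_, ?_, ?_, ?_, ?_, key false, key true⟩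
  · rintro i y ⟨x, hx, rfl, rfl⟩
    exact hs x hx false
  · rintro i y ⟨x, hx, rfl, rfl⟩
    exact hs x hx true
  · intro i i' hii
    rw [Set.disjoint_left]
    rintro y ⟨x, hx, rfl, rfl⟩ ⟨x', hx', rfl, he⟩
    apply hii
    rw [(hinj x' hx' x hx false false he).1]
  · intro i i' hii
    rw [Set.disjoint_left]
    rintro y ⟨x, hx, rfl, rfl⟩ ⟨x', hx', rfl, he⟩
    apply hii
    rw [(hinj x' hx' x hx true true he).1]
  · intro i i'
    rw [Set.disjoint_left]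
    rintro y ⟨x, hx, rfl, rfl⟩ ⟨x', hx', rfl, he⟩
    have := (hinj x' hx' x hx true false he).2
    exact Bool.noConfusion this

end Pool.Agent.N799.SQ
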