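import Mathlib

/-! Traces of words in matrices `T U + T⁻¹ V` with `T` transcendental and `U` of rank one. -/

set_option autoImplicit false

namespace Pool.Agent.N799.SQ

open Polynomial Matrix

section

variable {A : Type} (c r : A → Fin 2 → ℚ) (V : A → Matrix (Fin 2) (Fin 2) ℚ)

/-- the leading parts -/
def UU (x : A) : Matrix (Fin 2) (Fin 2) ℚ := vecMulVec (c x) (r x)

/-- the polynomial matrix of a letter -/
noncomputable def PM (x : A) : Matrix (Fin 2) (Fin 2) ℚ[X] :=
  (X ^ 2 : ℚ[X]) • (UU c r x).map (C : ℚ →+* ℚ[X]) + (V x).map (C : ℚ →+* ℚ[X])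

/-- the real matrix of a letter -/
noncomputable def RM (T : ℝ) (x : A) : Matrix (Fin 2) (Fin 2) ℝ :=
  T • (UU c r x).map (fun t : ℚ => (t : ℝ)) + T⁻¹ • (V x).map (fun t : ℚ => (t : ℝ))

lemma PM_apply (x : A) (i j : Fin 2) :
    PM c r V x i j = X ^ 2 * C (UU c r x i j) + C (V x i j) := by
  simp [PM]

lemma coeff_aux (p : ℚ[X]) (n : ℕ) (hp : p.natDegree ≤ n) (u v : ℚ) :
    (p * (X ^ 2 * C u + C v)).natDegree ≤ n + 2 ∧
    (p * (X ^ 2 * C u + C v)).coeff (n + 2) = p.coeff n * u := by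
  have e : p * (X ^ 2 * C u + C v) = (p * C u) * X ^ 2 + p * C v := by ring
  rw [e]
  constructor
  · refine natDegree_add_le_of_degree_le ?_ ?_
    · refine natDegree_mul_le_of_le ?_ (natDegree_X_pow_le 2)
      refine le_trans (natDegree_mul_C_le _ _) hp
    · refine le_trans (natDegree_mul_C_le _ _) (by omega)
  · rw [coeff_add, coeff_mul_X_pow, coeff_mul_C, coeff_mul_C]
    rw [coeff_eq_zero_of_natDegree_lt (p := p) (n := n + 2) (by omega)]
    ring

lemma prod_coeff (L : List A) : ∀ i j,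
    ((L.map (PM c r V)).prod i j).natDegree ≤ 2 * L.length ∧
    ((L.map (PM c r V)).prod i j).coeff (2 * L.length) = (L.map (UU c r)).prod i j := by
  induction L using List.reverseRecOn with
  | nil =>
    intro i j
    simp only [List.map_nil, List.prod_nil, List.length_nil, mul_zero, Matrix.one_apply]
    split <;> simp
  | append_singleton L x ih =>
    intro i j
    simp only [List.map_append, List.prod_append, List.map_cons, List.map_nil, List.prod_cons,
      List.prod_nil, mul_one, List.length_append, List.length_cons, List.length_nil,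
      Matrix.mul_apply, Fin.sum_univ_two, PM_apply]
    have h0 := coeff_aux _ _ (ih i 0).1 (UU c r x 0 j) (V x 0 j)
    have h1 := coeff_aux _ _ (ih i 1).1 (UU c r x 1 j) (V x 1 j)
    have e : 2 * (L.length + (0 + 1)) = 2 * L.length + 2 := by ring
    rw [e]
    refine ⟨natDegree_add_le_of_degree_le h0.1 h1.1, ?_⟩
    rw [coeff_add, h0.2, h1.2, (ih i 0).2, (ih i 1).2]

lemma prod_UU (L : List A) : ∀ a : A, List.IsChain (fun x y => r x ⬝ᵥ c y ≠ 0) (a :: L) →
    ∃ k : ℚ, k ≠ 0 ∧ ((a :: L).map (UU c r)).prod =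
      k • vecMulVec (c a) (r ((a :: L).getLast (List.cons_ne_nil _ _))) := by
  induction L with
  | nil =>
    intro a _
    exact ⟨1, one_ne_zero, by simp [UU]⟩
  | cons b L ih =>
    intro a h
    rw [List.isChain_cons_cons] at h
    obtain ⟨k, hk, hk'⟩ := ih b h.2
    refine ⟨k * (r a ⬝ᵥ c b), mul_ne_zero hk h.1, ?_⟩
    rw [List.map_cons, List.prod_cons, hk', List.getLast_cons (List.cons_ne_nil _ _)]
    unfold UU
    rw [Matrix.mul_smul, Matrix.vecMulVec_mul_vecMulVec, Matrix.vecMulVec_smul, smul_smul]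

lemma trace_UU (L : List A) (hL : L ≠ []) (h1 : List.IsChain (fun x y => r x ⬝ᵥ c y ≠ 0) L)
    (h2 : r (L.getLast hL) ⬝ᵥ c (L.head hL) ≠ 0) : (L.map (UU c r)).prod.trace ≠ 0 := by
  rcases L with _ | ⟨a, L⟩
  · exact absurd rfl hL
  · obtain ⟨k, hk, hk'⟩ := prod_UU c r L a h1
    rw [hk', Matrix.trace_smul, Matrix.trace_vecMulVec, smul_eq_mul]
    rw [dotProduct_comm] at h2
    exact mul_ne_zero hk h2

lemma eval_prod (T : ℝ) (hT : T ≠ 0) (L : List A) :
    ((L.map (PM c r V)).prod).map (aeval T : ℚ[X] →ₐ[ℚ] ℝ) =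
      T ^ L.length • (L.map (RM c r V T)).prod := by
  induction L with
  | nil => simp [Matrix.map_one]
  | cons a L ih =>
    have e : (PM c r V a).map (aeval T : ℚ[X] →ₐ[ℚ] ℝ) = T • RM c r V T a := by
      ext i j
      simp only [Matrix.map_apply, PM_apply, RM, Matrix.smul_apply, Matrix.add_apply, map_add,
        map_mul, map_pow, aeval_X, aeval_C, smul_eq_mul]
      simp only [eq_ratCast]
      field_simp
    rw [List.map_cons, List.prod_cons, List.map_cons, List.prod_cons]
    rw [show ((PM c r V a * (List.map (PM c r V) L).prod).map (aeval T : ℚ[X] →ₐ[ℚ] ℝ)) =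
      (PM c r V a).map (aeval T : ℚ[X] →ₐ[ℚ] ℝ) *
        ((List.map (PM c r V) L).prod).map (aeval T : ℚ[X] →ₐ[ℚ] ℝ) from
        Matrix.map_mul (f := (aeval T : ℚ[X] →ₐ[ℚ] ℝ))]
    rw [e, ih, List.length_cons, Matrix.smul_mul, Matrix.mul_smul, smul_smul, pow_succ, mul_comm T]

/-- a word whose consecutive letters (cyclically) do not cancel has trace different from `2` -/
lemma trace_ne_two (T : ℝ) (hT : Transcendental ℚ T) (L : List A) (hL : L ≠ [])
    (h1 : List.IsChain (fun x y => r x ⬝ᵥ c y ≠ 0) L)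
    (h2 : r (L.getLast hL) ⬝ᵥ c (L.head hL) ≠ 0) :
    (L.map (RM c r V T)).prod.trace ≠ 2 := by
  intro htr
  have hT0 : T ≠ 0 := by
    rintro rfl
    exact hT (isAlgebraic_zero)
  set P : ℚ[X] := (L.map (PM c r V)).prod.trace - 2 * X ^ L.length with hP
  have hn : 0 < L.length := List.length_pos_iff.2 hL
  have e1 : aeval T P = 0 := by
    have e := eval_prod c r V T hT0 L
    have e' := congrArg Matrix.trace e
    rw [Matrix.trace_smul, htr] at e'
    have e'' : (((L.map (PM c r V)).prod).map (aeval T : ℚ[X] →ₐ[ℚ] ℝ)).trace =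
        aeval T ((L.map (PM c r V)).prod.trace) := by
      simp [Matrix.trace_fin_two]
    rw [e''] at e'
    have e3 : aeval T (2 : ℚ[X]) = 2 := map_ofNat _ 2
    rw [hP, map_sub, e', map_mul, e3, map_pow, aeval_X, smul_eq_mul, mul_comm, sub_self]
  have e2 : P ≠ 0 := by
    intro h0
    have h3 : P.coeff (2 * L.length) = 0 := by rw [h0, coeff_zero]
    rw [hP, coeff_sub, Matrix.trace_fin_two, coeff_add, (prod_coeff c r V L 0 0).2,
      (prod_coeff c r V L 1 1).2] at h3
    have h4 : ((2 : ℚ[X]) * X ^ L.length).coeff (2 * L.length) = 0 := by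
      rw [show (2 : ℚ[X]) = C 2 from rfl, coeff_C_mul_X_pow]
      rw [if_neg (by omega)]
    rw [h4, sub_zero] at h3
    have := trace_UU c r L hL h1 h2
    rw [Matrix.trace_fin_two] at this
    exact this h3
  exact hT ⟨P, e2, e1⟩

end

end Pool.Agent.N799.SQ
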